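import Mathlib
import Pool.Agent.R390.MZ.Lev

set_option autoImplicit false

/-!
# Hoffman's basis conjecture: the numbers of relations in the families `H_{k,d}`

Let `c_{k,d}` be the number of the compositions of `k` with parts `2` and `3`, at most `d` of them
equal to `3`, and `r_{k,d}` the number of independent relations between their multiple zeta values.
Then all `r_{k,d}` are `0`, or `r_{k,d} = c_{k-n,d-e}` for all `k`, `d` with fixed `n ≥ 5`, `e ≥ 1`, or
this holds for `k < m`, and `r_{k,d} ≥ c_{k-n,d-e} + c_{k-m,d-e'} - c_{k-n-m,d-e-e'}` for all `k`, `d`.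
-/

open Pool.Agent.R390.MZ

namespace Pool.Agent.Results.MP_301213_nt.LevelTrichotomy

/-- Let `c_{k,d}` be the number of the words in `2` and `3` of weight `k` with at most `d` letters `3`
(and `c_{k,d} = 0` for `k < 0` or `d < 0`), and let `r_{k,d}` be the number of independent relations
between the multiple zeta values of these words. Let `x_s` be real numbers with weights `wt s` and
levels `lv s ≤ wt s` such that for all `k`, `d` there are exactly `c_{k,d}` monomials in the `x_s` of
weight `k` and level at most `d`, and their values and the multiple zeta values of these words have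
the same span (`Gens2`; such numbers exist by Brown's theorem). Then one of the following holds.
(i) `r_{k,d} = 0` for all `k`, `d`: Hoffman's conjecture.
(ii) There are `n ≥ 5` and `e ≥ 1` with `r_{k,d} = c_{k-n,d-e}` for all `k`, `d`.
(iii) There are `m ≥ n ≥ 5` and `e, e' ≥ 1` with `r_{k,d} = c_{k-n,d-e}` for all `k < m` and all `d`,
and `r_{k,d} ≥ c_{k-n,d-e}` and `r_{k,d} ≥ c_{k-n,d-e} + c_{k-m,d-e'} - c_{k-n-m,d-e-e'}` for all `k`
and `d`. -/
theorem result {σ : Type} (wt lv : σ → ℕ) (x : σ → ℝ) (hG : Gens2 wt lv x) :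
    (∀ k d, nrel (fun l : Wkd k d => zt l.1) = 0) ∨
    (∃ n e, 5 ≤ n ∧ 1 ≤ e ∧ ∀ k d, nrel (fun l : Wkd k d => zt l.1) = shD cnt n e k d) ∨
    (∃ n e m e', 5 ≤ n ∧ n ≤ m ∧ 1 ≤ e ∧ 1 ≤ e' ∧
      (∀ k < m, ∀ d, nrel (fun l : Wkd k d => zt l.1) = shD cnt n e k d) ∧
      ∀ k d, shD cnt n e k d ≤ nrel (fun l : Wkd k d => zt l.1) ∧
        shD cnt n e k d + shD cnt m e' k d ≤
          nrel (fun l : Wkd k d => zt l.1) + shD cnt (n + m) (e + e') k d) :=
  tri_lev hG

end Pool.Agent.Results.MP_301213_nt.LevelTrichotomy
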