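import Mathlib
import Pool.Agent.R390.MZ.Hoff
import Pool.Agent.R390.MZ.Rec

set_option autoImplicit false

/-!
# Hoffman's basis conjecture: a recurrence for the numbers of relations, or infinitely many new relations

Let `r_k` be the number of independent relations between the Hoffman elements of weight `k`.  Either
`r_k = r_(k-2) + r_(k-3)` for all large `k`, or there are infinitely many weights with a relation
that is not a consequence of relations of smaller weight.
-/

open Pool.Agent.R390.MZ MvPolynomial

namespace Pool.Agent.Results.MP_301213_nt.RecurrenceOrNew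

/-- `f` is a new relation of weight `k` between the numbers `x s`: a homogeneous polynomial of weight
`k` that vanishes at `x` and is not in the ideal generated by the homogeneous polynomials of smaller
weight that vanish at `x` -/
def NewRelation {σ : Type} (wt : σ → ℕ) (x : σ → ℝ) (f : MvPolynomial σ ℚ) (k : ℕ) : Prop :=
  IsWeightedHomogeneous wt f k ∧ aeval x f = 0 ∧
    f ∉ Ideal.span {g : MvPolynomial σ ℚ | ∃ j < k, IsWeightedHomogeneous wt g j ∧ aeval x g = 0}

/-- Let `x_s` be numbers of weight `wt s` which generate the spaces `Z_k` of multiple zeta values with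
`d_k` monomials of weight `k` (for example, by Brown's theorem, the multiple zeta values of the
Lyndon words in `2` and `3`), and assume Brown's theorem that the Hoffman elements of weight `k` span
`Z_k` (`hS`). Let `r_k` be the number of independent relations between the Hoffman elements of weight
`k`. Then `r_k = r_(k-2) + r_(k-3)` for all sufficiently large `k`, or there are new relations
between the `x_s` in infinitely many weights. -/
theorem result {σ : Type} (wt : σ → ℕ) (x : σ → ℝ)
    (hS : ∀ k, Submodule.span ℚ (Set.range fun l : Weq k => zt l.1) = ZL k)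
    (hB : Gens ZL dz wt x) :
    (∃ k0, ∀ k, k0 ≤ k → nrel (fun l : Weq k => zt l.1) =
      nrel (fun l : Weq (k - 2) => zt l.1) + nrel (fun l : Weq (k - 3) => zt l.1)) ∨
    ∀ N, ∃ k, N < k ∧ ∃ f, NewRelation wt x f k := by
  obtain ⟨hd, hZ⟩ := hB
  rcases dichotomy hd hZ with ⟨K, hK⟩ | h
  · left
    obtain ⟨k0, hk0⟩ := recurrence_of_poly hK
    refine ⟨max k0 3, fun k hk => ?_⟩
    have h1 := hk0 k ((le_max_left _ _).trans hk)
    have h2 := nrel_Weq (hS k)
    have h3 := nrel_Weq (hS (k - 2))
    have h4 := nrel_Weq (hS (k - 3))
    have h5 : dz k = dz (k - 2) + dz (k - 3) := by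
      obtain ⟨j, rfl⟩ : ∃ j, k = j + 3 := ⟨k - 3, by have := (le_max_right k0 3).trans hk; omega⟩
      rw [dz, show j + 3 - 2 = j + 1 by omega, show j + 3 - 3 = j by omega]
    have h6 : Module.finrank ℚ (ZL k) =
        Module.finrank ℚ (ZL (k - 2)) + Module.finrank ℚ (ZL (k - 3)) := by exact_mod_cast h1
    omega
  · exact Or.inr h

end Pool.Agent.Results.MP_301213_nt.RecurrenceOrNew
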