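import Mathlib
import Pool.Agent.R404.DZ.E

/-!
# Expansions in the Hoffman elements of weight `k` have coefficients larger than `k ^ (β k)`, `β < 1/3`

By the theorem of Brown the numbers `ζ(w)`, `w` a composition of `k` with parts in `{2, 3}`, span
`Z_k`. Let `η < 1`, `β < 1 / 3` and `γ < 1 - η`. For every large `k` there are at least `k ^ η` products of
zeta values of weight `k` (elements of `Z_k`) with the following property: if a nonzero integral
combination of them, with coefficients of total size at most `2 ^ (k ^ γ)`, is written in any way as a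
real combination of the `ζ(w)`, then some coefficient is larger than `k ^ (β k)` in absolute value.
-/

set_option autoImplicit false

namespace Pool.Agent.Results.MP_301213_nt.SuperexponentialExpansions

/-- `trunc [s_1, ..., s_r] m` is the sum of `∏ m_i ^ (-s_i)` over `m > m_1 > ... > m_r ≥ 1` -/
noncomputable def trunc : List ℕ → ℕ → ℝ
  | [], _ => 1
  | s :: l, m => ∑ j ∈ Finset.Ico 1 m, trunc l j / (j : ℝ) ^ s

/-- the multiple zeta value `ζ(s_r, ..., s_1)` of the problem for the list `[s_1, ..., s_r]`: the first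
entry of the list belongs to the largest variable -/
noncomputable def mzv : List ℕ → ℝ
  | [] => 1
  | s :: l => ∑' m : ℕ, trunc l (m + 1) / ((m + 1 : ℕ) : ℝ) ^ s

/-- the zeta value -/
noncomputable def zeta (k : ℕ) : ℝ := ∑' m : ℕ, 1 / ((m + 1 : ℕ) : ℝ) ^ k

/-- the compositions of `k` with parts in `{2, 3}` -/
def Hoffman (k : ℕ) (w : List ℕ) : Prop := (∀ s ∈ w, s = 2 ∨ s = 3) ∧ w.sum = k

lemma trunc_eq (w : List ℕ) : ∀ m, trunc w m = Pool.Agent.Y760.ZG.hr w m := by
  induction w with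
  | nil => intro m; rw [trunc, Pool.Agent.Y760.ZG.hr_nil]
  | cons s w ih =>
    intro m
    rw [trunc, Pool.Agent.Y760.ZG.hr_cons]
    exact Finset.sum_congr rfl fun j _ => by rw [ih]

lemma mzv_eq : mzv = Pool.Agent.Y760.ZG.mz := by
  funext w
  cases w with
  | nil => rw [mzv, Pool.Agent.Y760.ZG.mz]
  | cons s w =>
    rw [mzv, Pool.Agent.Y760.ZG.mz]
    exact tsum_congr fun m => by rw [trunc_eq]

lemma height_hoffman {w : List ℕ} (hw : ∀ s ∈ w, s = 2 ∨ s = 3) :
    w.sum ≤ 3 * Pool.Agent.Y777.AM.ht w := by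
  induction w with
  | nil => simp
  | cons s w ih =>
    have h1 := ih fun x hx => hw x (List.mem_cons_of_mem _ hx)
    have h2 := hw s List.mem_cons_self
    have h3 : Pool.Agent.Y777.AM.ht (s :: w) = Pool.Agent.Y777.AM.ht w + 1 := by
      unfold Pool.Agent.Y777.AM.ht
      rw [List.countP_cons_of_pos]
      have : 2 ≤ s := by omega
      simpa using this
    rw [List.sum_cons, h3]
    omega

/-- Let `0 < η < 1`, `0 ≤ β < 1 / 3` and `γ + η < 1`. There is a number `D` such that for every large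
`k` there is a set `T` of at least `k ^ η` strictly increasing `D`-tuples of integers `≥ 2` with sum `k`
with the following property. Let `c_n` (`n ∈ T`) be integers, not all zero, with
`∑ |c_n| ≤ 2 ^ (k ^ γ)`, let `H` be a finite set of compositions of `k` with parts in `{2, 3}` and `b_h`
real numbers with `∑_T c_n ζ(n_1) ... ζ(n_D) = ∑_H b_h ζ(h)`. Then `|b_h| > k ^ (β k)` for some `h`
in `H`. -/
theorem result (β γ η : ℝ) (hη : 0 < η) (hη1 : η < 1) (hβ : 0 ≤ β) (hβ3 : β < 1 / 3)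
    (hγ : γ + η < 1) :
    ∃ D k0 : ℕ, ∀ k : ℕ, k0 ≤ k → ∃ T : Finset (Fin D → ℕ), (k : ℝ) ^ η ≤ T.card ∧
      (∀ n ∈ T, StrictMono n ∧ ∑ j, n j = k ∧ ∀ j, 2 ≤ n j) ∧
      ∀ c : (Fin D → ℕ) → ℤ, (∃ n ∈ T, c n ≠ 0) →
      ∑ n ∈ T, |(c n : ℝ)| ≤ (2 : ℝ) ^ ((k : ℝ) ^ γ) →
      ∀ H : Finset (List ℕ), (∀ h ∈ H, Hoffman k h) → ∀ b : List ℕ → ℝ,
      ∑ n ∈ T, (c n : ℝ) * ∏ j, zeta (n j) = ∑ h ∈ H, b h * mzv h →
      ∃ h ∈ H, (k : ℝ) ^ (β * k) < |b h| := by
  rw [mzv_eq]
  set ρ : ℝ := (1 / 3 - β) / 2 with hρ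
  have hρ0 : 0 < ρ := by rw [hρ]; linarith
  obtain ⟨D, N1, h1⟩ := Pool.Agent.R404.DZ.asyE γ ρ 0 0 η hη hη1 hγ hρ0
  obtain ⟨N2, h2⟩ := Pool.Agent.R404.MZ.asyH 1 1 (1 / 3 - ρ) (1 / 3) (by rw [hρ]; linarith)
    (by linarith)
  refine ⟨D, max (max N1 N2) (2 * D + 3), fun k hk => ?_⟩
  have hk3 : 2 * D + 3 ≤ k := (le_max_right _ _).trans hk
  have hkp : (0 : ℝ) < k := by
    have : 0 < k := by omega
    exact_mod_cast this
  obtain ⟨T, e1, e2, e3⟩ := h1 k ((le_max_left _ _).trans ((le_max_left _ _).trans hk))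
  refine ⟨T, e1, fun n hn => ⟨(e2 n hn).1, (e2 n hn).2.1, fun j => ?_⟩,
    fun c hc hcC H hH b hb => ?_⟩
  · have h3 := (e2 n hn).2.2 j
    by_contra h4
    push Not at h4
    have h5 : 2 * D * n j ≤ 2 * D * 1 := Nat.mul_le_mul_left _ (by omega)
    omega
  · by_contra hcon
    push Not at hcon
    have h3 := e3 c hc hcC ∅ (by simp) (fun _ => 0) (by simp)
    rw [Finset.sum_empty, sub_zero] at h3
    have hb' : ∑ n ∈ T, (c n : ℝ) * ∏ j, Pool.Agent.R404.DZ.zv (n j) =
        ∑ h ∈ H, b h * Pool.Agent.Y760.ZG.mz h := hb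
    rw [hb'] at h3
    set D' : ℝ := (k : ℝ) ^ (β * k) with hD
    have hD0 : 0 < D' := Real.rpow_pos_of_pos hkp _
    have h4 := h2 k ((le_max_right _ _).trans ((le_max_left _ _).trans hk)) H (fun h hh => by
      obtain ⟨g1, g2⟩ := hH h hh
      refine ⟨fun m hm => ?_, fun x hx => ?_, by rw [g2, one_mul], ?_⟩
      · have := g1 m hm
        omega
      · have := g1 x (List.mem_of_mem_head? hx)
        omega
      · have g3 := height_hoffman g1
        rw [g2] at g3
        have g4 : (k : ℝ) ≤ 3 * (Pool.Agent.Y777.AM.ht h : ℝ) := by exact_mod_cast g3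
        linarith) (fun h => b h / D') (fun h hh => by
      rw [one_pow, abs_div, abs_of_pos hD0, div_le_one hD0]
      exact hcon h hh)
    have h5 : ∑ h ∈ H, b h * Pool.Agent.Y760.ZG.mz h =
        D' * ∑ h ∈ H, b h / D' * Pool.Agent.Y760.ZG.mz h := by
      rw [Finset.mul_sum]
      exact Finset.sum_congr rfl fun h _ => by field_simp
    rw [h5, abs_mul, abs_of_pos hD0] at h3
    have h6 : D' * ((k : ℝ) ^ ((1 / 3 - ρ) * k))⁻¹ = ((k : ℝ) ^ (ρ * k))⁻¹ := by
      rw [hD, ← Real.rpow_neg hkp.le, ← Real.rpow_neg hkp.le, ← Real.rpow_add hkp]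
      congr 1
      rw [hρ]
      ring
    have h7 := mul_le_mul_of_nonneg_left h4 hD0.le
    rw [h6] at h7
    linarith

end Pool.Agent.Results.MP_301213_nt.SuperexponentialExpansions
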