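import Mathlib
import Pool.Agent.R390.MZ.Super

set_option autoImplicit false

/-!
# The numbers of relations between the Hoffman elements of weight `k` are supermodular

Let `r_k` be the number of independent relations between the Hoffman elements of weight `k`.  Then
`r_(k+i) + r_(k+j) ≤ r_(k+i+j) + r_k` for all `k` and all `i ≥ 5`, `j ≥ 2`, and also for
`{i, j} = {2, 3}` and `{3, 4}`.  For `k = 0`: these numbers are superadditive.
-/

open Pool.Agent.R390.MZ

namespace Pool.Agent.Results.MP_301213_nt.SupermodularCounts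

/-- Assume the two theorems of Brown: the Hoffman elements of weight `k` span the space `Z_k` of all
multiple zeta values of weight `k` (`hS`), and the `Z_k` are generated by numbers with `d_k` monomials
of weight `k` (`hB`). Let `r_k` be the number of independent relations between the Hoffman elements
of weight `k`. Then `r_(k+i) + r_(k+j) ≤ r_(k+i+j) + r_k` for all `k` and all `i ≥ 5`, `j ≥ 2`, and
for `(i, j) = (2, 3)` and `(i, j) = (4, 3)`. -/
theorem result (hS : ∀ k, Submodule.span ℚ (Set.range fun l : Weq k => zt l.1) = ZL k)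
    (hB : Gen ZL dz) (i j : ℕ)
    (hij : (5 ≤ i ∧ 2 ≤ j) ∨ (i = 2 ∧ j = 3) ∨ (i = 4 ∧ j = 3)) (k : ℕ) :
    nrel (fun l : Weq (k + i) => zt l.1) + nrel (fun l : Weq (k + j) => zt l.1) ≤
      nrel (fun l : Weq (k + i + j) => zt l.1) + nrel (fun l : Weq k => zt l.1) := by
  obtain ⟨σ, wt, x, hd, hZ⟩ := hB
  have h := super_hom hd hZ (fun k hk => ZL_ne_bot hk) hij k
  have hfin := finite_H hd
  have e : ∀ l, nrel (fun w : Weq l => zt w.1) = Module.finrank ℚ (pt (H wt) (Ph wt x) l) := by
    intro l
    have h1 := finrank_map_add (finrank_H hd) (MvPolynomial.aeval (R := ℚ) x).toLinearMap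
      (P := Ph wt x) (k := l) (fun f hf => mem_Ph_of_mem_H hf)
    rw [← Z_eq hZ] at h1
    have h2 := nrel_Weq (hS l)
    omega
  rw [e, e, e, e]
  exact h

end Pool.Agent.Results.MP_301213_nt.SupermodularCounts
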